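import Pool.Agent.helper64.AX.SpecD

/-!
# Project AX (MP_2e0e07_nt), row CPE: permutation of the simultaneous eigenspaces
-/

set_option autoImplicit false

namespace Pool.Agent.AX

open Matrix

theorem CPE_iter {S : Type} [Finite S] (T : S → S) (hT : Function.Injective T) (m : ℕ)
    (hm : Nat.card S ≤ m) (x : S) : T^[m.factorial] x = x := by
  classical
  haveI := Fintype.ofFinite S
  let π : Equiv.Perm S := Equiv.ofBijective T (Finite.injective_iff_bijective.mp hT)
  have h1 : π ^ m.factorial = 1 := by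
    have h2 : π ^ (Fintype.card (Equiv.Perm S)) = 1 := pow_card_eq_one
    rw [Fintype.card_perm] at h2
    obtain ⟨c, hc⟩ := Nat.factorial_dvd_factorial (show Fintype.card S ≤ m by rwa [← Nat.card_eq_fintype_card])
    rw [hc, pow_mul, h2, one_pow]
  have h3 : (π : S → S)^[m.factorial] = ⇑(π ^ m.factorial) := Equiv.Perm.iterate_eq_pow π m.factorial
  have h4 : (π : S → S) = T := rfl
  rw [h4] at h3
  rw [h3, h1]
  rfl

theorem CPE : CPE_stmt := by
  classical
  intro m k _ _ A X hcomm hfin hX a ha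
  let F : Matrix (Fin m) (Fin m) k ≃ₐ[k] Module.End k (Fin m → k) := Matrix.toLinAlgEquiv'
  let f : A → Module.End k (Fin m → k) := fun a => F ((a : GL (Fin m) k) : Matrix (Fin m) (Fin m) k)
  have hcm : ∀ i j : A, Commute (f i) (f j) := by
    intro i j
    change F _ * F _ = F _ * F _
    rw [← map_mul, ← map_mul, ← Units.val_mul, ← Units.val_mul, hcomm i i.2 j j.2]
  have hss : ∀ i : A, (f i).IsFinitelySemisimple := by
    intro i
    obtain ⟨n, hn, hi⟩ := hfin i i.2
    have h1 : (f i) ^ n = 1 := by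
      change F _ ^ n = 1
      rw [← map_pow, ← Units.val_pow_eq_pow_val, hi, Units.val_one, map_one]
    refine (Module.End.isSemisimple_of_squarefree_aeval_eq_zero
      (p := Polynomial.X ^ n - Polynomial.C 1)
      (Polynomial.separable_X_pow_sub_C 1 hn one_ne_zero).squarefree ?_).isFinitelySemisimple
    rw [map_sub, map_pow, Polynomial.aeval_X, h1, map_one, map_one, sub_self]
  let E : (A → k) → Submodule k (Fin m → k) := fun χ => ⨅ i, (f i).maxGenEigenspace (χ i)
  have hE : ∀ (χ : A → k) (v : Fin m → k), v ∈ E χ ↔ ∀ i, f i v = χ i • v := by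
    intro χ v
    simp only [E, Submodule.mem_iInf]
    refine forall_congr' (fun i => ?_)
    rw [(hss i).maxGenEigenspace_eq_eigenspace, Module.End.mem_eigenspace_iff]
  have htop : ⨆ χ, E χ = ⊤ :=
    Module.End.iSup_iInf_maxGenEigenspace_eq_top_of_iSup_maxGenEigenspace_eq_top_of_commute f
      (fun i j _ => hcm i j) (fun i => Module.End.iSup_maxGenEigenspace_eq_top (f i))
  have hind : iSupIndep E := Module.End.independent_iInf_maxGenEigenspace_of_forall_mapsTo f
    (fun i j φ => Module.End.mapsTo_maxGenEigenspace_of_comm (hcm j i) φ)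
  haveI := hind.fintypeNeBotOfFiniteDimensional
  have hcard : Nat.card {χ // E χ ≠ ⊥} ≤ m := by
    rw [Nat.card_eq_fintype_card]
    refine hind.subtype_ne_bot_le_finrank.trans ?_
    rw [Module.finrank_fin_fun]
  -- conjugation by X
  have hσm : ∀ b : A, X⁻¹ * (b : GL (Fin m) k) * X ∈ A := by
    intro b
    rw [hX]
    have : X * (X⁻¹ * (b : GL (Fin m) k) * X) * X⁻¹ = b := by group
    rw [this]
    exact b.2
  let σ : A → A := fun b => ⟨X⁻¹ * (b : GL (Fin m) k) * X, hσm b⟩
  have hσ : Function.Surjective σ := by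
    intro c
    refine ⟨⟨X * c * X⁻¹, (hX c).mp c.2⟩, Subtype.ext ?_⟩
    change X⁻¹ * (X * (c : GL (Fin m) k) * X⁻¹) * X = c
    group
  let T : (A → k) → (A → k) := fun χ => χ ∘ σ
  have hT : Function.Injective T := hσ.injective_comp_right
  have hFX : ∀ (g h : GL (Fin m) k) (v : Fin m → k),
      F (g : Matrix (Fin m) (Fin m) k) (F (h : Matrix (Fin m) (Fin m) k) v) =
      F ((g * h : GL (Fin m) k) : Matrix (Fin m) (Fin m) k) v := by
    intro g h v
    rw [Units.val_mul, map_mul]
    rfl
  have hXE : ∀ χ v, v ∈ E χ → F (X : Matrix (Fin m) (Fin m) k) v ∈ E (T χ) := by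
    intro χ v hv
    rw [hE] at hv ⊢
    intro i
    have h1 : f i (F (X : Matrix (Fin m) (Fin m) k) v) = F (X : Matrix (Fin m) (Fin m) k) (f (σ i) v) := by
      change F ((i : GL (Fin m) k) : Matrix (Fin m) (Fin m) k) (F (X : Matrix (Fin m) (Fin m) k) v) =
        F (X : Matrix (Fin m) (Fin m) k) (F ((X⁻¹ * (i : GL (Fin m) k) * X : GL (Fin m) k) : Matrix (Fin m) (Fin m) k) v)
      rw [hFX, hFX]
      have : (i : GL (Fin m) k) * X = X * (X⁻¹ * (i : GL (Fin m) k) * X) := by group
      rw [← this]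
    rw [h1, hv (σ i), map_smul]
    rfl
  have hiter : ∀ (n : ℕ) χ v, v ∈ E χ → F ((X ^ n : GL (Fin m) k) : Matrix (Fin m) (Fin m) k) v ∈ E (T^[n] χ) := by
    intro n
    induction n with
    | zero =>
      intro χ v hv
      rw [pow_zero, Units.val_one, map_one]
      exact hv
    | succ n ih =>
      intro χ v hv
      rw [pow_succ, ← hFX, Function.iterate_succ_apply]
      exact ih _ _ (hXE χ v hv)
  have hne : ∀ χ, E χ ≠ ⊥ → E (T χ) ≠ ⊥ := by
    intro χ h
    obtain ⟨v, hv, hv0⟩ := (Submodule.ne_bot_iff _).mp h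
    refine (Submodule.ne_bot_iff _).mpr ⟨_, hXE χ v hv, fun h0 => hv0 ?_⟩
    have h1 := hFX X⁻¹ X v
    rw [h0, map_zero, inv_mul_cancel, Units.val_one, map_one] at h1
    exact h1.symm
  let T' : {χ // E χ ≠ ⊥} → {χ // E χ ≠ ⊥} := fun χ => ⟨T χ.1, hne χ.1 χ.2⟩
  have hT' : Function.Injective T' := by
    intro x y hxy
    exact Subtype.ext (hT (congrArg Subtype.val hxy))
  have hTT : ∀ (n : ℕ) (χ : {χ // E χ ≠ ⊥}), ((T'^[n] χ).1 : A → k) = T^[n] χ.1 := by
    intro n
    induction n with
    | zero => intro χ; rfl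
    | succ n ih =>
      intro χ
      rw [Function.iterate_succ_apply, Function.iterate_succ_apply, ih]
  have hfix : ∀ χ, E χ ≠ ⊥ → T^[m.factorial] χ = χ := by
    intro χ h
    have h1 := hTT m.factorial ⟨χ, h⟩
    rw [CPE_iter T' hT' m hcard] at h1
    exact h1.symm
  have key : ∀ v : Fin m → k, F ((X ^ m.factorial : GL (Fin m) k) : Matrix (Fin m) (Fin m) k) (f ⟨a, ha⟩ v) =
      f ⟨a, ha⟩ (F ((X ^ m.factorial : GL (Fin m) k) : Matrix (Fin m) (Fin m) k) v) := by
    intro v
    have hv : v ∈ ⨆ χ, E χ := by rw [htop]; exact Submodule.mem_top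
    induction hv using Submodule.iSup_induction' with
    | mem χ v hv =>
      by_cases h : E χ = ⊥
      · rw [h, Submodule.mem_bot] at hv
        rw [hv, map_zero, map_zero, map_zero]
      · have h1 := hiter m.factorial χ v hv
        rw [hfix χ h, hE] at h1
        rw [h1 ⟨a, ha⟩, (hE χ v).mp hv ⟨a, ha⟩, map_smul]
    | zero => rw [map_zero, map_zero, map_zero]
    | add v w _ _ ihv ihw => rw [map_add, map_add, map_add, map_add, ihv, ihw]
  refine Units.ext ?_
  refine F.injective ?_
  refine LinearMap.ext (fun v => ?_)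
  rw [← hFX, ← hFX]
  exact key v

end Pool.Agent.AX
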