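import Pool.Agent.helper64.AX.SpecD

/-!
# Project AX (MP_2e0e07_nt), row DOR: the orders of the stabilisers of the p-points
-/

set_option autoImplicit false

namespace Pool.Agent.AX

open Matrix

theorem DOR_dvd {G α : Type} [Group G] [MulAction G α] (n : ℕ) : ∀ (c : ℕ) (X : Finset α), X.card = c →
    (∀ (g : G), ∀ x ∈ X, g • x ∈ X) → (∀ x ∈ X, n ∣ (MulAction.orbit G x).ncard) → n ∣ X.card := by
  classical
  intro c
  induction c using Nat.strong_induction_on with
  | _ c ih =>
    intro X hc hst hn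
    rcases X.eq_empty_or_nonempty with h | ⟨x, hx⟩
    · rw [h, Finset.card_empty]
      exact dvd_zero n
    · set O : Finset α := X.filter (fun y => y ∈ MulAction.orbit G x) with hO
      have hOs : (O : Set α) = MulAction.orbit G x := by
        ext y
        rw [Finset.mem_coe, hO, Finset.mem_filter]
        constructor
        · exact fun h => h.2
        · rintro ⟨g, rfl⟩
          exact ⟨hst g x hx, g, rfl⟩
      have h1 : (MulAction.orbit G x).ncard = O.card := by
        rw [← hOs]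
        exact Set.ncard_coe_finset O
      have hOX : O ⊆ X := Finset.filter_subset _ _
      have h2 : (X \ O).card + O.card = X.card := Finset.card_sdiff_add_card_eq_card hOX
      have h3 : 0 < O.card := Finset.card_pos.mpr ⟨x, by
        rw [hO, Finset.mem_filter]
        exact ⟨hx, MulAction.mem_orbit_self x⟩⟩
      have h4 : n ∣ O.card := by
        rw [← h1]
        exact hn x hx
      have h5 : n ∣ (X \ O).card := by
        refine ih (X \ O).card (by omega) (X \ O) rfl ?_ ?_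
        · intro g y hy
          obtain ⟨hy1, hy2⟩ := Finset.mem_sdiff.mp hy
          refine Finset.mem_sdiff.mpr ⟨hst g y hy1, fun h => hy2 ?_⟩
          rw [hO, Finset.mem_filter] at h ⊢
          refine ⟨hy1, ?_⟩
          obtain ⟨g', hg'⟩ := h.2
          refine ⟨g⁻¹ * g', ?_⟩
          change (g⁻¹ * g') • x = y
          rw [mul_smul]
          have : g' • x = g • y := hg'
          rw [this, inv_smul_smul]
        · intro y hy
          exact hn y (Finset.mem_sdiff.mp hy).1
      rw [← h2]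
      exact dvd_add h5 h4

theorem DOR_invfix {Z : Type} {a : Equiv.Perm Z} {z : Z} (h : a z = z) : a⁻¹ z = z := by
  rw [Equiv.Perm.inv_eq_iff_eq, h]

/-- the subgroup with carrier `Us p H z` -/
def DOR_U (p : ℕ) {Z : Type} (H : Subgroup (Equiv.Perm Z)) (h : FPA p H) (z : Z) : Subgroup (Equiv.Perm Z) where
  carrier := Us p H z
  mul_mem' := fun {a b} ha hb => ⟨H.mul_mem ha.1 hb.1, by rw [Equiv.Perm.mul_apply, hb.2.1, ha.2.1],
    h.mul a ha.1 b hb.1 z ha.2.1 hb.2.1 ha.2.2 hb.2.2⟩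
  one_mem' := ⟨H.one_mem, rfl, 0, one_pow _⟩
  inv_mem' := fun {a} ha => ⟨H.inv_mem ha.1, DOR_invfix ha.2.1, by
    obtain ⟨k, hk⟩ := ha.2.2
    exact ⟨k, by rw [inv_pow, hk, inv_one]⟩⟩

/-- the subgroup with carrier `St H z` -/
def DOR_S {Z : Type} (H : Subgroup (Equiv.Perm Z)) (z : Z) : Subgroup (Equiv.Perm Z) where
  carrier := St H z
  mul_mem' := fun {a b} ha hb => ⟨H.mul_mem ha.1 hb.1, by rw [Equiv.Perm.mul_apply, hb.2, ha.2]⟩
  one_mem' := ⟨H.one_mem, rfl⟩
  inv_mem' := fun {a} ha => ⟨H.inv_mem ha.1, DOR_invfix ha.2⟩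

/-- the same as a group acting by conjugation -/
def DOR_C {Z : Type} (H : Subgroup (Equiv.Perm Z)) (z : Z) : Subgroup (ConjAct (Equiv.Perm Z)) where
  carrier := {g | ConjAct.ofConjAct g ∈ St H z}
  mul_mem' := fun {a b} ha hb => (DOR_S H z).mul_mem ha hb
  one_mem' := (DOR_S H z).one_mem
  inv_mem' := fun {a} ha => (DOR_S H z).inv_mem ha

theorem DOR_PEconj {p : ℕ} {G : Type} [Group G] {g h : G} (hh : PE p h) : PE p (g * h * g⁻¹) := by
  obtain ⟨k, hk⟩ := hh
  exact ⟨k, by rw [conj_pow, hk, mul_one, mul_inv_cancel]⟩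

theorem DOR_e (p : ℕ) {Z : Type} (H : Subgroup (Equiv.Perm Z)) (hF : FPA p H) (x : Z) (q e : ℕ)
    (hU : (Us p H x).ncard = q) (hS : (St H x).ncard = q * e) : e ∣ q - 1 := by
  classical
  have hfinS : (St H x).Finite := hF.fin.subset (fun g hg => hg.1)
  have hfinU : (Us p H x).Finite := hF.fin.subset (fun g hg => hg.1)
  have h1U : (1 : Equiv.Perm Z) ∈ Us p H x := (DOR_U p H hF x).one_mem
  set X : Finset (Equiv.Perm Z) := hfinU.toFinset.erase 1 with hX
  have hXc : X.card = q - 1 := by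
    rw [hX, Finset.card_erase_of_mem (hfinU.mem_toFinset.mpr h1U), ← Set.ncard_eq_toFinset_card _ hfinU, hU]
  rw [← hXc]
  have hmemX : ∀ u, u ∈ X ↔ u ≠ 1 ∧ u ∈ Us p H x := by
    intro u
    rw [hX, Finset.mem_erase, hfinU.mem_toFinset]
  refine DOR_dvd (G := DOR_C H x) e _ X rfl ?_ ?_
  · rintro ⟨g, hg⟩ u hu
    change ConjAct.ofConjAct g ∈ St H x at hg
    rw [hmemX] at hu ⊢
    change ConjAct.ofConjAct g * u * (ConjAct.ofConjAct g)⁻¹ ≠ 1 ∧
      ConjAct.ofConjAct g * u * (ConjAct.ofConjAct g)⁻¹ ∈ Us p H x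
    refine ⟨?_, H.mul_mem (H.mul_mem hg.1 hu.2.1) (H.inv_mem hg.1), ?_, DOR_PEconj hu.2.2.2⟩
    · intro h
      exact hu.1 (conj_eq_one_iff.mp h)
    · rw [Equiv.Perm.mul_apply, Equiv.Perm.mul_apply, DOR_invfix hg.2, hu.2.2.1, hg.2]
  · intro u hu
    rw [hmemX] at hu
    rw [← MulAction.index_stabilizer]
    have h1 : (MulAction.stabilizer (DOR_C H x) u).index * Nat.card (MulAction.stabilizer (DOR_C H x) u) =
        Nat.card (DOR_C H x) := Subgroup.index_mul_card _
    have h2 : Nat.card (DOR_C H x) = q * e := by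
      rw [← hS]
      exact Nat.card_coe_set_eq (St H x)
    -- the stabiliser embeds into `Us`
    let φ : DOR_C H x →* Equiv.Perm Z := (ConjAct.ofConjAct.toMonoidHom).comp (DOR_C H x).subtype
    have hφ : Function.Injective φ := by
      intro a b hab
      exact Subtype.ext (ConjAct.ofConjAct.injective hab)
    have h3 : (MulAction.stabilizer (DOR_C H x) u).map φ ≤ DOR_U p H hF x := by
      rintro _ ⟨g, hg, rfl⟩
      have hgS : ConjAct.ofConjAct (g : ConjAct (Equiv.Perm Z)) ∈ St H x := g.2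
      have hg' : ConjAct.ofConjAct (g : ConjAct (Equiv.Perm Z)) * u * (ConjAct.ofConjAct (g : ConjAct (Equiv.Perm Z)))⁻¹ = u := hg
      have hcom : u * ConjAct.ofConjAct (g : ConjAct (Equiv.Perm Z)) = ConjAct.ofConjAct (g : ConjAct (Equiv.Perm Z)) * u := by
        rw [mul_inv_eq_iff_eq_mul] at hg'
        exact hg'.symm
      exact ⟨hgS.1, hgS.2, hF.com u hu.2.1 _ hgS.1 x hu.2.2.1 hgS.2 hu.2.2.2 hu.1 hcom⟩
    have h4 : Nat.card ((MulAction.stabilizer (DOR_C H x) u).map φ) = Nat.card (MulAction.stabilizer (DOR_C H x) u) :=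
      (Nat.card_congr ((MulAction.stabilizer (DOR_C H x) u).equivMapOfInjective φ hφ).toEquiv).symm
    have h5 : Nat.card (DOR_U p H hF x) = q := by
      rw [← hU]
      exact Nat.card_coe_set_eq (Us p H x)
    have h6 : Nat.card (MulAction.stabilizer (DOR_C H x) u) ∣ q := by
      rw [← h4, ← h5]
      exact Subgroup.card_dvd_of_le h3
    obtain ⟨t, ht⟩ := h6
    rw [h2] at h1
    have hpos : 0 < Nat.card (MulAction.stabilizer (DOR_C H x) u) := by
      have : Finite (DOR_C H x) := hfinS.to_subtype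
      exact Nat.card_pos
    refine ⟨t, ?_⟩
    have h7 : (MulAction.stabilizer (DOR_C H x) u).index * Nat.card (MulAction.stabilizer (DOR_C H x) u) =
        e * t * Nat.card (MulAction.stabilizer (DOR_C H x) u) := by
      rw [h1]
      calc q * e = (Nat.card (MulAction.stabilizer (DOR_C H x) u) * t) * e := by rw [← ht]
        _ = _ := by ring
    exact Nat.eq_of_mul_eq_mul_right hpos h7

theorem DOR_q (p : ℕ) {Z : Type} (H : Subgroup (Equiv.Perm Z)) (hF : FPA p H) (x : Z) (q : ℕ) (hx : x ∈ Om p H)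
    (hst : ∀ y ∈ Om p H, ∀ h ∈ H, h y ∈ Om p H) (hfin : (Om p H).Finite)
    (hU : (Us p H x).ncard = q) : q ∣ (Om p H).ncard - 1 := by
  classical
  set X : Finset Z := hfin.toFinset.erase x with hX
  have hXc : X.card = (Om p H).ncard - 1 := by
    rw [hX, Finset.card_erase_of_mem (hfin.mem_toFinset.mpr hx), ← Set.ncard_eq_toFinset_card _ hfin]
  rw [← hXc]
  have hmemX : ∀ u, u ∈ X ↔ u ≠ x ∧ u ∈ Om p H := by
    intro u
    rw [hX, Finset.mem_erase, hfin.mem_toFinset]
  refine DOR_dvd (G := DOR_U p H hF x) q _ X rfl ?_ ?_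
  · rintro ⟨g, hg⟩ y hy
    change g ∈ Us p H x at hg
    rw [hmemX] at hy ⊢
    change g y ≠ x ∧ g y ∈ Om p H
    refine ⟨fun h => hy.1 ?_, hst y hy.2 g hg.1⟩
    have h2 : g y = g x := by rw [h, hg.2.1]
    exact g.injective h2
  · intro y hy
    rw [hmemX] at hy
    rw [← MulAction.index_stabilizer]
    have h1 : MulAction.stabilizer (DOR_U p H hF x) y = ⊥ := by
      rw [Subgroup.eq_bot_iff_forall]
      rintro ⟨g, hg⟩ hgy
      have hg' : g ∈ Us p H x := hg
      have hgy' : g y = y := hgy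
      by_contra hne
      have hne' : g ≠ 1 := fun h => hne (Subtype.ext h)
      obtain ⟨z, hz⟩ := hF.one g hg'.1 hne' hg'.2.2
      exact hy.1 (((hz y).mp hgy').trans ((hz x).mp hg'.2.1).symm)
    rw [h1, Subgroup.index_bot]
    have h5 : Nat.card (DOR_U p H hF x) = q := by
      rw [← hU]
      exact Nat.card_coe_set_eq (Us p H x)
    rw [h5]

theorem DOR (hDSY : DSY_stmt) : DOR_stmt := by
  classical
  intro p _ Z H hF hp
  obtain ⟨-, h2, h3, h4⟩ := hDSY p Z H hF
  haveI : Finite H := hF.fin.to_subtype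
  -- a point of Om
  obtain ⟨g, hg⟩ := exists_prime_orderOf_dvd_card' p hp
  have hg1 : (g : Equiv.Perm Z) ≠ 1 := by
    intro h
    have h1 : g = 1 := Subtype.ext h
    rw [h1, orderOf_one] at hg
    exact (Fact.out : p.Prime).one_lt.ne hg
  have hgP : PE p (g : Equiv.Perm Z) := by
    refine ⟨1, ?_⟩
    have h1 : g ^ p = 1 := by rw [← hg]; exact pow_orderOf_eq_one g
    have h2 : ((g ^ p : H) : Equiv.Perm Z) = 1 := by rw [h1]; rfl
    rw [pow_one]
    exact h2
  obtain ⟨x, hx⟩ := hF.one g g.2 hg1 hgP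
  have hxO : x ∈ Om p H := ⟨g, g.2, hg1, hgP, (hx x).mpr rfl⟩
  have horb : MulAction.orbit H x = Om p H := by
    ext y
    constructor
    · rintro ⟨h, rfl⟩
      exact h3 x hxO h h.2
    · intro hy
      obtain ⟨h, hh, hxy⟩ := h2 x hxO y hy
      exact ⟨⟨h, hh⟩, hxy⟩
  have hfin : (Om p H).Finite := by
    rw [← horb]
    exact Set.finite_range (fun h : H => h • x)
  set k := (Nat.card H).factorization p with hk
  have hStcard : ∀ y ∈ Om p H, (Om p H).ncard * (St H y).ncard = Nat.card H := by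
    intro y hy
    have horb' : MulAction.orbit H y = Om p H := by
      ext z
      constructor
      · rintro ⟨h, rfl⟩
        exact h3 y hy h h.2
      · intro hz
        obtain ⟨h, hh, hyz⟩ := h2 y hy z hz
        exact ⟨⟨h, hh⟩, hyz⟩
    have e1 := Subgroup.index_mul_card (MulAction.stabilizer H y)
    rw [MulAction.index_stabilizer, horb'] at e1
    rw [← e1]
    have e2 : Nat.card (MulAction.stabilizer H y) = (St H y).ncard := by
      rw [← Nat.card_coe_set_eq]
      refine Nat.card_congr ⟨fun g => ⟨(g : H), (g : H).2, g.2⟩, fun g => ⟨⟨g.1, g.2.1⟩, g.2.2⟩, fun g => rfl, fun g => rfl⟩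
    rw [e2]
  have hUle : ∀ y ∈ Om p H, (Us p H y).ncard ∣ (St H y).ncard := by
    intro y _
    rw [← Nat.card_coe_set_eq, ← Nat.card_coe_set_eq]
    exact Subgroup.card_dvd_of_le (H := DOR_U p H hF y) (K := DOR_S H y) (fun g hg => ⟨hg.1, hg.2.1⟩)
  have hHpos : 0 < Nat.card H := Nat.card_pos
  obtain ⟨e, he⟩ := hUle x hxO
  rw [(h4 x hxO).1] at he
  have hpk : 0 < p ^ k := pow_pos (Fact.out : p.Prime).pos k
  have hOpos : 0 < (Om p H).ncard := (Set.ncard_pos hfin).mpr ⟨x, hxO⟩
  have hS : ∀ y ∈ Om p H, (St H y).ncard = p ^ k * e := by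
    intro y hy
    rw [← he]
    refine Nat.eq_of_mul_eq_mul_left hOpos ?_
    rw [hStcard y hy, hStcard x hxO]
  have hePos : 1 ≤ e := by
    rcases Nat.eq_zero_or_pos e with h | h
    · exfalso
      have h5 := hStcard x hxO
      rw [he, h, Nat.mul_zero, Nat.mul_zero] at h5
      omega
    · exact h
  obtain ⟨m, hm⟩ := DOR_q p H hF x (p ^ k) hxO h3 hfin (h4 x hxO).1
  have hOm : (Om p H).ncard = 1 + m * p ^ k := by
    have : m * p ^ k = p ^ k * m := Nat.mul_comm _ _
    omega
  refine ⟨k, m, e, (h4 x hxO).2, hePos, DOR_e p H hF x (p ^ k) e (h4 x hxO).1 he, hfin, hOm, ?_, ?_⟩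
  · rw [← hOm, ← he]
    exact (hStcard x hxO).symm
  · intro y hy
    exact ⟨(h4 y hy).1, hS y hy⟩

end Pool.Agent.AX
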